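import Pool.Agent.H.MP_92cab9_nt.E

set_option autoImplicit false

namespace Pool.Agent.Results.MP_92cab9_nt.Full

open Polynomial MeasureTheory

/-- `p` is the minimal polynomial over `ℤ` of the algebraic number `γ`: irreducible in `ℤ[X]`,
positive leading coefficient, vanishing at `γ`. -/
def IsMinPoly (γ : ℂ) (p : ℤ[X]) : Prop :=
  Irreducible p ∧ 0 < p.leadingCoeff ∧ aeval γ p = 0

/-- `(1/d) log (a₀ ∏ max (1, |γ_j|))` for `p = a₀ ∏ (X - γ_j)` of degree `d`: the absolute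
logarithmic height of any root of the minimal polynomial `p`. -/
noncomputable def h (p : ℤ[X]) : ℝ :=
  Real.log ((p.leadingCoeff : ℝ) * ((p.aroots ℂ).map fun r => max 1 ‖r‖).prod) / p.natDegree

lemma h_eq {γ : ℂ} {p : ℤ[X]} (hp : IsMinPoly γ p) :
    h p = Real.log (p.map (Int.castRingHom ℂ)).mahlerMeasure / p.natDegree := by
  rw [h, mahlerMeasure_eq_leadingCoeff_mul_prod_roots,
    leadingCoeff_map_of_injective (f := Int.castRingHom ℂ) Int.cast_injective p]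
  have : ‖(Int.castRingHom ℂ) p.leadingCoeff‖ = (p.leadingCoeff : ℝ) := by
    rw [eq_intCast, Complex.norm_intCast, abs_of_pos (Int.cast_pos.2 hp.2.1)]
  rw [this]
  rfl

lemma IsMinPoly.int {γ : ℂ} {p : ℤ[X]} (hp : IsMinPoly γ p) : IsIntegral ℚ γ :=
  (IsAlgebraic.extendScalars (S := ℚ) Int.cast_injective ⟨p, hp.1.ne_zero, hp.2.2⟩).isIntegral

theorem result (n : ℕ) (hn : 1 ≤ n) : ∀ᵐ x : Fin n → ℝ, ∃ c D₀ : ℝ, 0 < c ∧ 0 < D₀ ∧
    ∀ D : ℕ, D₀ ≤ D → ∀ μ : ℝ, D ≤ μ → ∀ (α β : Fin n → ℂ) (pα pβ : Fin n → ℤ[X]),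
      (∀ i, IsMinPoly (α i) (pα i)) → (∀ i, IsMinPoly (β i) (pβ i)) →
      Module.finrank ℚ (IntermediateField.adjoin ℚ (Set.range α ∪ Set.range β)) ≤ D →
      (∀ i, Module.finrank ℚ (IntermediateField.adjoin ℚ (Set.range α ∪ Set.range β)) *
        max (h (pα i)) (h (pβ i)) ≤ μ) →
      ∃ i, Real.exp (-(c * (D : ℝ) ^ (1 / (2 * n) : ℝ) * μ)) ≤
        max ‖(x i : ℂ) - β i‖ ‖Complex.exp (x i) - α i‖ := by
  filter_upwards [H.MP_92cab9_nt.main hn] with x hx
  obtain ⟨c, D₀, hc, hD₀, hx⟩ := hx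
  refine ⟨c, D₀, hc, hD₀, fun D hD μ hμ α β pα pβ hα hβ hK hh => ?_⟩
  set K := IntermediateField.adjoin ℚ (Set.range α ∪ Set.range β) with hKdef
  have : Finite (Set.range α ∪ Set.range β : Set ℂ) :=
    ((Set.finite_range α).union (Set.finite_range β)).to_subtype
  have : FiniteDimensional ℚ K := IntermediateField.finiteDimensional_adjoin (by
    rintro _ (⟨i, rfl⟩ | ⟨i, rfl⟩)
    exacts [(hα i).int, (hβ i).int])
  have : NumberField K := {}
  have mα : ∀ i, α i ∈ K := fun i => IntermediateField.subset_adjoin _ _ (Or.inl ⟨i, rfl⟩)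
  have mβ : ∀ i, β i ∈ K := fun i => IntermediateField.subset_adjoin _ _ (Or.inr ⟨i, rfl⟩)
  have key : ∀ (γ : K) (p : ℤ[X]), IsMinPoly γ p →
      Height.logHeight₁ γ ≤ Module.finrank ℚ K * h p := by
    intro γ p hp
    rw [h_eq hp]
    refine H.MP_92cab9_nt.mahler_bound γ hp.1 ((algebraMap K ℂ).injective ?_)
    have := aeval_algHom_apply (algebraMap K ℂ).toIntAlgHom γ p
    rw [map_zero]
    exact this.symm.trans hp.2.2
  have h0 : (0 : ℝ) ≤ Module.finrank ℚ K := Nat.cast_nonneg _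
  obtain ⟨t, ht⟩ := hx D hD μ hμ K (algebraMap K ℂ)
    (Sum.elim (fun i => ⟨β i, mβ i⟩) fun i => ⟨α i, mα i⟩) hK (by
      rintro (i | i)
      · exact (key _ _ (hβ i)).trans
          ((mul_le_mul_of_nonneg_left (le_max_right _ _) h0).trans (hh i))
      · exact (key _ _ (hα i)).trans
          ((mul_le_mul_of_nonneg_left (le_max_left _ _) h0).trans (hh i)))
  rcases t with i | i
  · exact ⟨i, ht.trans (le_max_left _ _)⟩
  · exact ⟨i, ht.trans (le_max_right _ _)⟩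

end Pool.Agent.Results.MP_92cab9_nt.Full
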